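import Pool.Agent.Q5.MS.Window2
import Pool.Agent.Results.MP_1a91b9_nt.MeanSquareLeading

/-!
# The conjecture of Birch and Swinnerton-Dyer over number fields and the windows of the product

Let `K` be a number field, `E : y² = x³ + a x + b` an elliptic curve with `a, b ∈ 𝓞_K` (for example a curve over
`ℚ` and any `K`), and let `F` be a continuation of the `L`-series of `E/K` (product over the primes `v ∤ 6Δ`) to a
half plane `Re s > 1 - η`, analytic except perhaps for a pole at `s = 1`, of polynomial growth. For `0 < l < 1` let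

`W_l(y) = ∏_{y^l < Nv ≤ y} #E(k_v)/Nv`

be the part of the product of Birch and Swinnerton-Dyer in the window `(y^l, y]`. Then:

1. The following are equivalent: `F` has no zeros with `Re s > 1`; for ONE exponent `l` the logarithmic means
   `(log Y)⁻¹ ∫_e^Y |log W_l(y)| dy/y` are bounded; they are bounded for ALL `l`.
2. For every real `ρ`: `ord_{s=1} F = ρ` and `F` has no zeros with `Re s > 1`, if and only if the means
   `(log Y)⁻¹ ∫_e^Y |log W_l(y) - ρ log (1/l)| dy/y` are bounded for large `Y` by a constant independent of `l`. With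
   `ρ = rk E(K)`: the rank part of the conjecture together with the Riemann hypothesis for `E/K` says exactly that
   `log W_l(y) = rk E(K) log (1/l) + O(1)` in logarithmic mean, uniformly in `l`.
3. If `∑_{√y < Nv ≤ y} (a_v² - 2 Nv)/(2 Nv²)` has a limit (by Rankin and Selberg this is known for automorphic
   `E/K`), then ONE exponent `l` decides: `ord_{s=1} F = ρ` and `F` has no zeros with `Re s > 1`, if and only if
   `W_l(y) → (1/l)^ρ` in logarithmic mean, `(log Y)⁻¹ ∫_e^Y |log W_l(y) - ρ log (1/l)| dy/y → 0`.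

In 1 and 2 nothing of the theory of Rankin and Selberg is used; the unknown constant of the asymptotic
`∏_{Nv ≤ y} #E(k_v)/Nv ∼ C (log y)^r` and the factor which comes from the squares of the primes (`√2` over `ℚ`)
disappear in 3.

Proof. Let `S(u)` be the sum over the prime powers `≤ e^u` of the coefficients of `log F`. If the Laplace integral of
`S(u) - S(lu)` converges for all `x > 0`, then, since that of `S(u) = (S(u) - S(lu)) + S(lu)` converges at `x` if it
converges at `x/l`, and converges for large `x`, it converges for all `x > 0`: this continues `log F` to `Re s > 1`. The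
converse and the order are from the mean square theorem (`Pool.Agent.TH270.MS`). The primes and the prime powers are
compared with a bound of Mertens type. For `K = ℚ` part 3 is `OneWindow` of problem `MP_8b7eba_nt`; part 2 and the
other fields are new there too. The products over all `Nv ≤ y` are in `MeanProduct` of problem `MP_ae0bd0_nt`.
-/

set_option autoImplicit false

namespace Pool.Agent.Results.MP_f50388_nt.WindowLaw

open Filter Topology Set Complex NumberField IsDedekindDomain MeasureTheory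
open Pool.Agent.Results.MP_ae0bd0_nt.MeanProduct (Good norm points trace factor upTo product Tempered
  OrderRH rank)
open Pool.Agent.Results.MP_1a91b9_nt.MeanSquareLeading (squares)

variable {K : Type} [Field K] [NumberField K]

/-- The good primes `v` with `y^l < Nv ≤ y`. -/
def between (a b : 𝓞 K) (l y : ℝ) : Set (HeightOneSpectrum (𝓞 K)) :=
  {v | Good a b v ∧ y ^ l < norm v ∧ (norm v : ℝ) ≤ y}

/-- `W_l(y) = ∏_{y^l < Nv ≤ y} #E(k_v)/Nv`, `#E(k_v) = points + 1`, a finite product. -/
noncomputable def window (a b : 𝓞 K) (l y : ℝ) : ℝ :=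
  ∏ᶠ v ∈ between a b l y, ((points a b v : ℝ) + 1) / norm v

/-- `(log Y)⁻¹ ∫_e^Y |φ(y)| dy/y`. -/
noncomputable def logMean (φ : ℝ → ℝ) (Y : ℝ) : ℝ := (∫ y in Real.exp 1..Y, |φ y| / y) / Real.log Y

/-- `F` has no zeros with `Re s > 1`. -/
def NoZeros (F : ℂ → ℂ) : Prop := ∀ s : ℂ, 1 < s.re → F s ≠ 0

/-! ### translation -/

open Pool.Agent.Results.MP_ae0bd0_nt.MeanProduct (NN data log_product cP_eq zeros_shift mero_shift)
open Pool.Agent.TH942.ES (GoodV alV curve_sys cP)
open Pool.Agent.TH270.MS (Mc)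
open Pool.Agent.Q5.MS (Pv Sq WV window_bdd window_order window_pv)

theorem fin_upTo (a b : 𝓞 K) (y : ℝ) : (upTo a b y).Finite := by
  have h1 := ((curve_sys a b).fin_le y).image Subtype.val
  exact h1.subset fun v hv => ⟨⟨v, hv.1⟩, hv.2, rfl⟩

theorem fac_pos (a b : 𝓞 K) (v : HeightOneSpectrum (𝓞 K)) :
    0 < ((points a b v : ℝ) + 1) / norm v := by
  have h9 : (2 : ℝ) ≤ norm v := by exact_mod_cast Pool.Agent.H921R2.TatePole.two_le_nm v
  positivity

theorem product_pos (a b : 𝓞 K) (y : ℝ) : 0 < product a b y := by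
  unfold product
  refine finprod_mem_induction (fun x : ℝ => 0 < x) one_pos (fun x y hx hy => mul_pos hx hy) ?_
  intro v _
  exact fac_pos a b v

theorem window_pos (a b : 𝓞 K) (l y : ℝ) : 0 < window a b l y := by
  unfold window
  refine finprod_mem_induction (fun x : ℝ => 0 < x) one_pos (fun x y hx hy => mul_pos hx hy) ?_
  intro v _
  exact fac_pos a b v

theorem split (a b : 𝓞 K) {l y : ℝ} (hl1 : l < 1) (hy : 1 ≤ y) :
    product a b y = product a b (y ^ l) * window a b l y := by
  have hle : y ^ l ≤ y := by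
    calc y ^ l ≤ y ^ (1 : ℝ) := Real.rpow_le_rpow_of_exponent_le hy hl1.le
      _ = y := Real.rpow_one y
  have h1 : upTo a b y = upTo a b (y ^ l) ∪ between a b l y := by
    ext v
    constructor
    · rintro ⟨h1, h2⟩
      rcases le_or_gt (norm v : ℝ) (y ^ l) with h | h
      · exact Or.inl ⟨h1, h⟩
      · exact Or.inr ⟨h1, h, h2⟩
    · rintro (⟨h1, h2⟩ | ⟨h1, h2, h3⟩)
      · exact ⟨h1, h2.trans hle⟩
      · exact ⟨h1, h3⟩
  have h2 : Disjoint (upTo a b (y ^ l)) (between a b l y) := by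
    rw [Set.disjoint_left]
    rintro v ⟨_, h2⟩ ⟨_, h3, _⟩
    exact absurd h2 (not_le.2 h3)
  have h3 : (between a b l y).Finite := (fin_upTo a b y).subset fun v hv => ⟨hv.1, hv.2.2⟩
  unfold product window
  rw [h1, finprod_mem_union h2 (fin_upTo a b _) h3]

theorem wv_eq (a b : 𝓞 K) (ρ : ℝ) {l y : ℝ} (hl1 : l < 1) (hy : Real.exp 1 ≤ y) :
    WV (NN a b) (alV a b) ρ l y = Real.log (window a b l y) - ρ * Real.log (1 / l) := by
  have hy1 : (1 : ℝ) ≤ y := by linarith [Real.add_one_le_exp 1]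
  unfold WV
  rw [← log_product, ← log_product, split a b hl1 hy1, Real.log_mul (product_pos a b _).ne'
    (window_pos a b l y).ne', one_div, Real.log_inv]
  ring

theorem mean_int (a b : 𝓞 K) (ρ : ℝ) {l : ℝ} (hl1 : l < 1) {Y : ℝ} (hY : Real.exp 1 ≤ Y) :
    ∫ y in Real.exp 1..Y, |WV (NN a b) (alV a b) ρ l y| / y =
      ∫ y in Real.exp 1..Y, |Real.log (window a b l y) - ρ * Real.log (1 / l)| / y := by
  refine intervalIntegral.integral_congr fun y hy => ?_
  rw [uIcc_of_le hY] at hy
  show |WV (NN a b) (alV a b) ρ l y| / y =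
    |Real.log (window a b l y) - ρ * Real.log (1 / l)| / y
  rw [wv_eq a b ρ hl1 hy.1]

theorem le_iff (a b : 𝓞 K) (ρ B : ℝ) {l : ℝ} (hl1 : l < 1) :
    (∀ᶠ Y : ℝ in atTop, ∫ y in Real.exp 1..Y, |WV (NN a b) (alV a b) ρ l y| / y ≤
      B * Real.log Y) ↔
    ∀ᶠ Y : ℝ in atTop, logMean (fun y => Real.log (window a b l y) - ρ * Real.log (1 / l)) Y ≤
      B := by
  refine eventually_congr ?_
  filter_upwards [eventually_ge_atTop (Real.exp 1)] with Y hY
  have hlog : 0 < Real.log Y := by
    have := Pool.Agent.TH270.MS.one_le_log hY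
    linarith
  unfold logMean
  rw [div_le_iff₀ hlog, mean_int a b ρ hl1 hY]

/-- **The windows of the product of Birch and Swinnerton-Dyer over number fields.** -/
theorem result (a b : 𝓞 K) (_hΔ : 4 * a ^ 3 + 27 * b ^ 2 ≠ 0) (F : ℂ → ℂ) (hF : Tempered a b F) :
    List.TFAE [
      NoZeros F,
      ∃ l : ℝ, 0 < l ∧ l < 1 ∧ ∃ B : ℝ, ∀ᶠ Y : ℝ in atTop,
        logMean (fun y => Real.log (window a b l y)) Y ≤ B,
      ∀ l : ℝ, 0 < l → l < 1 → ∃ B : ℝ, ∀ᶠ Y : ℝ in atTop,
        logMean (fun y => Real.log (window a b l y)) Y ≤ B] ∧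
    (∀ ρ : ℝ, OrderRH F ρ ↔ ∃ M : ℝ, ∀ l : ℝ, 0 < l → l < 1 → ∀ᶠ Y : ℝ in atTop,
      logMean (fun y => Real.log (window a b l y) - ρ * Real.log (1 / l)) Y ≤ M) ∧
    ((meromorphicOrderAt F 1 = (rank a b : ℤ) ∧ NoZeros F) ↔
      ∃ M : ℝ, ∀ l : ℝ, 0 < l → l < 1 → ∀ᶠ Y : ℝ in atTop,
        logMean (fun y => Real.log (window a b l y) - rank a b * Real.log (1 / l)) Y ≤ M) ∧
    (∀ c : ℝ, Tendsto (squares a b) atTop (𝓝 c) → ∀ ρ l : ℝ, 0 < l → l < 1 →
      (OrderRH F ρ ↔
        Tendsto (logMean fun y => Real.log (window a b l y) - ρ * Real.log (1 / l)) atTop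
          (𝓝 0))) := by
  obtain ⟨G₀, k, κ, η, C, H⟩ := data hF
  have h0 : ∀ ρ : ℝ, OrderRH F ρ ↔ ((∀ s : ℂ, 0 < s.re → F (1 + s) ≠ 0) ∧
      ∃ m : ℤ, ρ = m ∧ meromorphicOrderAt (fun s => F (1 + s)) 0 = m) := by
    intro ρ
    rw [mero_shift, zeros_shift]
    exact and_comm
  have main : ∀ ρ : ℝ, OrderRH F ρ ↔ ∃ M : ℝ, ∀ l : ℝ, 0 < l → l < 1 → ∀ᶠ Y : ℝ in atTop,
      logMean (fun y => Real.log (window a b l y) - ρ * Real.log (1 / l)) Y ≤ M := by
    intro ρ
    rw [h0, window_order H ρ]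
    exact exists_congr fun M => forall_congr' fun l => forall_congr' fun _ =>
      forall_congr' fun hl1 => le_iff a b ρ M hl1
  refine ⟨?_, main, ?_, fun c hc ρ l hl hl1 => ?_⟩
  · have t := window_bdd H
    rw [zeros_shift] at t
    have e1 : ∀ l B : ℝ, l < 1 → ((∀ᶠ Y : ℝ in atTop,
        ∫ y in Real.exp 1..Y, |WV (NN a b) (alV a b) 0 l y| / y ≤ B * Real.log Y) ↔
        ∀ᶠ Y : ℝ in atTop, logMean (fun y => Real.log (window a b l y)) Y ≤ B) := by
      intro l B hl1
      have h := le_iff a b 0 B hl1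
      simp only [zero_mul, sub_zero] at h
      exact h
    have t1 : NoZeros F ↔ ∃ l : ℝ, 0 < l ∧ l < 1 ∧ ∃ B : ℝ, ∀ᶠ Y : ℝ in atTop,
        ∫ y in Real.exp 1..Y, |WV (NN a b) (alV a b) 0 l y| / y ≤ B * Real.log Y := t.out 0 3
    have t2 : NoZeros F ↔ ∀ l : ℝ, 0 < l → l < 1 → ∃ B : ℝ, ∀ᶠ Y : ℝ in atTop,
        ∫ y in Real.exp 1..Y, |WV (NN a b) (alV a b) 0 l y| / y ≤ B * Real.log Y := t.out 0 4
    tfae_have 1 ↔ 2 := by
      rw [t1]
      exact exists_congr fun l => and_congr_right fun _ => and_congr_right fun hl1 =>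
        exists_congr fun B => e1 l B hl1
    tfae_have 1 ↔ 3 := by
      rw [t2]
      exact forall_congr' fun l => forall_congr' fun _ => forall_congr' fun hl1 =>
        exists_congr fun B => e1 l B hl1
    tfae_finish
  · have h1 := main (rank a b)
    rw [← h1]
    unfold OrderRH
    refine and_congr_left fun _ => ⟨fun h => ⟨rank a b, by push_cast; rfl, h⟩, ?_⟩
    rintro ⟨m, hm, h⟩
    have h3 : ((rank a b : ℤ) : ℝ) = (m : ℝ) := by
      rw [← hm]
      push_cast
      rfl
    have h4 : (rank a b : ℤ) = m := by exact_mod_cast h3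
    rw [h4]
    exact h
  · have hc' : Tendsto (Sq (NN a b) (alV a b)) atTop (𝓝 c) := by
      rw [← Pool.Agent.Results.MP_1a91b9_nt.MeanSquareLeading.squares_eq]
      exact hc
    rw [h0, ← window_pv H ρ hc' hl hl1]
    refine tendsto_congr' ?_
    filter_upwards [eventually_ge_atTop (Real.exp 1)] with Y hY
    unfold logMean
    rw [mean_int a b ρ hl1 hY]

end Pool.Agent.Results.MP_f50388_nt.WindowLaw
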