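import Mathlib
import Pool.Agent.TH344.DS.Main
import Pool.Agent.TH344.DT.Fin2
import Pool.Agent.W307.RS.MainD
import Pool.Agent.W307.RT.Tors
import Pool.Agent.Q17.BF.One
import Pool.Agent.Q17.FT.UniD

/-!
# Ranks and Tate-Shafarevich groups over multiquadratic fields, by minimal discriminant

All elliptic curves over `ℚ` with full rational 2-torsion are ordered by the absolute value of the
minimal discriminant. There is one set `Z` of curves of density zero such that for all `s` and `k`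
there is `C` such that for all the multiquadratic number fields `K = ℚ(√d_1, ..., √d_s)` the average
over the curves `E` outside of `Z` of
`2 ^ (k (rank E(K) + corank of the 2-primary part of Ш(E / K)))` is at most
`C (2 * 8 ^ (2 ^ s k)) ^ ω`, `ω` the number of the primes that divide `d_1 ... d_s`.

The Tate-Shafarevich group over a number field is that of `Pool.Agent.TH841.NF.ShaN`: continuous
cocycles of the absolute Galois group with values in the points over the algebraic closure, locally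
trivial at all the completions of `K`, modulo the coboundaries.
-/

set_option autoImplicit false

namespace Pool.Agent.Results.MP_f50388_nt.DiscriminantOverFields

open Finset Filter Topology

open Pool.Agent.TH841.NF.D (HasDiv crk rk)

/-- the curve `y² = x³ + A x + B` over a field `K` -/
def E (K : Type) [Field K] (A B : ℤ) : WeierstrassCurve K := ⟨0, 0, 0, (A : K), (B : K)⟩

/-- the absolute value of the minimal discriminant of an elliptic curve `W` over `ℚ`: the smallest
absolute value of the discriminant of a Weierstrass equation `V` with integer coefficients which is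
isomorphic to `W` over `ℚ` -/
noncomputable def minDisc (W : WeierstrassCurve ℚ) : ℕ :=
  sInf {n : ℕ | ∃ (V : WeierstrassCurve ℤ) (C : WeierstrassCurve.VariableChange ℚ),
    C • W = V.map (Int.castRingHom ℚ) ∧ n = V.Δ.natAbs}

/-- The pairs `(A, B)` of integers such that `4 A³ + 27 B² ≠ 0`, there is no prime `p` with
`p⁴ ∣ A` and `p⁶ ∣ B`, the minimal discriminant of `y² = x³ + A x + B` is at most `D`, and
`Z/2 x Z/2` embeds in the group of its rational points. (Every elliptic curve over `ℚ` is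
isomorphic to `E ℚ A B` for exactly one pair with the first two properties.) -/
def Fam (D : ℕ) : Set (ℤ × ℤ) :=
  {c : ℤ × ℤ | 4 * c.1 ^ 3 + 27 * c.2 ^ 2 ≠ 0 ∧
    (∀ p : ℕ, p.Prime → ¬ ((p : ℤ) ^ 4 ∣ c.1 ∧ (p : ℤ) ^ 6 ∣ c.2)) ∧
    (∃ f : ZMod 2 × ZMod 2 →+ (E ℚ c.1 c.2).toAffine.Point, Function.Injective f) ∧
    minDisc (E ℚ c.1 c.2) ≤ D}

/-- the proportion of the curves of `S` among the curves of minimal discriminant at most `D` -/
noncomputable def proportion (S : Set (ℤ × ℤ)) (D : ℕ) : ℝ :=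
  ((Fam D ∩ S).ncard : ℝ) / (Fam D).ncard

/-- the upper density of a set of curves -/
noncomputable def upperDensity (S : Set (ℤ × ℤ)) : ℝ := limsup (proportion S) atTop

/-- the number field `K` is generated by square roots of the integers `d i` -/
def Gen (K : Type) [Field K] [NumberField K] {s : ℕ} (d : Fin s → ℤ) : Prop :=
  ∃ x : Fin s → K, (∀ i, x i ^ 2 = (d i : K)) ∧
    IntermediateField.adjoin ℚ (Set.range x) = ⊤

/-- the number of the primes that divide one of the `d i` -/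
noncomputable def primes {s : ℕ} (d : Fin s → ℤ) : ℕ := (∏ i, d i).natAbs.primeFactors.card

/-! ### Proofs -/

open Pool.Agent.W307.SE (Sel)
open Pool.Agent.TH344.GT (EXC)
open Pool.Agent.TH344.DS (Dv)
open Pool.Agent.Q17.BF (PS)

lemma Fam_eqS (D : ℕ) : Fam D = Pool.Agent.W307.RS.DvS 2 D := by
  ext c
  have h : Pool.Agent.W307.RT.HasT 2 (Pool.Agent.W307.RT.Sh c.1 c.2) ↔
      ∃ f : ZMod 2 × ZMod 2 →+ (E ℚ c.1 c.2).toAffine.Point, Function.Injective f :=
    Pool.Agent.W307.RT.tors_iff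
  unfold Fam Pool.Agent.W307.RS.DvS
  rw [Set.mem_ofPred_eq, Set.mem_ofPred_eq, h]
  exact Iff.rfl

lemma Fam_eq (D : ℕ) : Fam D = (Dv D : Set (ℤ × ℤ)) := by
  classical
  rw [Fam_eqS]
  unfold Pool.Agent.TH344.DS.Dv
  rw [dif_pos (Pool.Agent.TH344.DS.excd.1 D), Set.Finite.coe_toFinset]

lemma Fam_ncard (D : ℕ) : (Fam D).ncard = (Dv D).card := by
  rw [Fam_eq, Set.ncard_coe_finset]

lemma proportion_eq (S : Set (ℤ × ℤ)) :
    proportion S = Pool.Agent.TH344.GT.pr Dv S := by
  funext D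
  unfold proportion Pool.Agent.TH344.GT.pr
  rw [Fam_eq, Set.ncard_coe_finset]

lemma upperDensity_eq (S : Set (ℤ × ℤ)) :
    upperDensity S = Pool.Agent.TH344.GT.ud Dv S := by
  unfold upperDensity Pool.Agent.TH344.GT.ud
  rw [proportion_eq]

lemma primes_le {s : ℕ} {d : Fin s → ℤ} (hd : ∀ i, d i ≠ 0) (T : Finset (Fin s)) :
    (∏ i ∈ T, d i).natAbs.primeFactors.card ≤ primes d := by
  apply card_le_card
  apply Nat.primeFactors_mono
  · exact Int.natAbs_dvd_natAbs.2 (prod_dvd_prod_of_subset _ _ _ (subset_univ T))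
  · exact Int.natAbs_ne_zero.2 (prod_ne_zero_iff.2 fun i _ => hd i)

/-- **Theorem.** The number of the elliptic curves over `ℚ` with full rational 2-torsion and minimal
discriminant at most `D` in absolute value is finite and tends to infinity with `D`. There is a set
`Z` of these curves of density zero such that for all `s` and `k` there is `C` such that for all
number fields `K = ℚ(√d_1, ..., √d_s)` and all `D`, if `M = C (2 * 8 ^ (2 ^ s k)) ^ ω` with the number
`ω` of the primes that divide `d_1 ... d_s`: the coranks of the 2-primary parts of the groups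
`Ш(E / K)`, `E` a curve of minimal discriminant at most `D`, are finite, the sum of
`(2 ^ (rank E(K) + corank Ш(E / K)[2^∞])) ^ k` over the curves of minimal discriminant at most `D`
outside of `Z` is at most `M` times the number of the curves of minimal discriminant at most `D`, and
at most `M / 2 ^ (k r)` times this number of the curves outside of `Z` have
`rank E(K) + corank Ш(E / K)[2^∞] ≥ r`. For all these fields and all `B` the upper density of the
curves with `rank E(K) + corank Ш(E / K)[2^∞] ≥ r`, times `B ^ r`, tends to zero for `r → ∞`. -/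
theorem result :
    (∀ D : ℕ, (Fam D).Finite) ∧ Tendsto (fun D : ℕ => (Fam D).ncard) atTop atTop ∧
    (∃ Z : Set (ℤ × ℤ), Tendsto (proportion Z) atTop (𝓝 0) ∧
      ∀ s k : ℕ, ∃ C : ℝ, ∀ d : Fin s → ℤ, (∀ i, d i ≠ 0) →
      ∀ (K : Type) [Field K] [NumberField K], Gen K d → ∀ D : ℕ,
        (∀ c ∈ Fam D, BddAbove {q | HasDiv (E K c.1 c.2) q}) ∧
        ∑ᶠ c ∈ Fam D \ Z, ((2 : ℝ) ^ (rk (E K c.1 c.2) + crk (E K c.1 c.2))) ^ k ≤
            C * (2 * 8 ^ (2 ^ s * k)) ^ primes d * (Fam D).ncard ∧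
        ∀ r : ℕ, (({c | c ∈ Fam D \ Z ∧
          r ≤ rk (E K c.1 c.2) + crk (E K c.1 c.2)}.ncard : ℕ) : ℝ) ≤
            C * (2 * 8 ^ (2 ^ s * k)) ^ primes d * (Fam D).ncard / 2 ^ (k * r)) ∧
    ∀ (s : ℕ) (d : Fin s → ℤ), (∀ i, d i ≠ 0) → ∀ (K : Type) [Field K] [NumberField K], Gen K d →
      ∀ B : ℝ, Tendsto (fun r : ℕ => B ^ r *
        upperDensity {c | r ≤ rk (E K c.1 c.2) + crk (E K c.1 c.2)}) atTop (𝓝 0) := by
  classical
  obtain ⟨F, hF, Z, hZ1, hZ2⟩ := Pool.Agent.Q17.FT.unifD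
  have hmem : ∀ (D : ℕ) (c : ℤ × ℤ), c ∈ Fam D → 4 * c.1 ^ 3 + 27 * c.2 ^ 2 ≠ 0 ∧
      Pool.Agent.W307.RT.HasT 2 (Pool.Agent.W307.RT.Sh c.1 c.2) := by
    intro D c hc
    rw [Fam_eqS] at hc
    exact ⟨hc.1, hc.2.2.1⟩
  -- one curve
  have one : ∀ (D : ℕ) (c : ℤ × ℤ), c ∈ Fam D → ∀ (K : Type) [Field K] [NumberField K] (s : ℕ)
      (d : Fin s → ℤ), Gen K d → (∀ i, d i ≠ 0) → ∀ q : ℕ, HasDiv (E K c.1 c.2) q →
      (2 : ℝ) ^ (rk (E K c.1 c.2) + q) ≤ (PS d (F c).1 (F c).2 : ℕ) := by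
    intro D c hc K _ _ s d hK hd q hq
    obtain ⟨h1, h1'⟩ := hmem D c hc
    obtain ⟨h2, h3, h4, e1, e2, e3, hr, h5, h6⟩ := hF c h1 h1'
    exact Pool.Agent.Q17.BF.one_curve hK hd (w := 1) one_ne_zero h1 hr (by rw [h5]; ring)
      (by rw [h6]; ring) h2 h3 h4 hq
  have hPS : ∀ s k : ℕ, ∃ C : ℝ, ∀ d : Fin s → ℤ, (∀ i, d i ≠ 0) → ∀ D,
      ∑ c ∈ (Dv D).filter (fun c => c ∉ Z), ((PS d (F c).1 (F c).2 : ℕ) : ℝ) ^ k ≤
        C * (2 * 8 ^ (2 ^ s * k)) ^ primes d * (Dv D).card := by
    intro s k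
    obtain ⟨C, hC0, hC⟩ := hZ2 (2 ^ s * k)
    refine ⟨2 ^ s * C, fun d hd D => ?_⟩
    have hc : Fintype.card (Finset (Fin s)) = 2 ^ s := by
      rw [Fintype.card_finset, Fintype.card_fin]
    calc ∑ c ∈ (Dv D).filter (fun c => c ∉ Z), ((PS d (F c).1 (F c).2 : ℕ) : ℝ) ^ k
        ≤ ∑ c ∈ (Dv D).filter (fun c => c ∉ Z), ∑ T : Finset (Fin s),
          ((Sel ((∏ i ∈ T, d i) * (F c).1) ((∏ i ∈ T, d i) * (F c).2)).ncard : ℝ) ^
            (2 ^ s * k) := by
          refine sum_le_sum fun c _ => ?_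
          have := Pool.Agent.TH841.NF.prod_pow_le (fun T : Finset (Fin s) =>
            ((Sel ((∏ i ∈ T, d i) * (F c).1) ((∏ i ∈ T, d i) * (F c).2)).ncard : ℝ))
            (fun T => Nat.cast_nonneg _) k
          rw [hc] at this
          refine le_trans (le_of_eq ?_) this
          unfold PS
          push_cast
          rfl
      _ = ∑ T : Finset (Fin s), ∑ c ∈ (Dv D).filter (fun c => c ∉ Z),
          ((Sel ((∏ i ∈ T, d i) * (F c).1) ((∏ i ∈ T, d i) * (F c).2)).ncard : ℝ) ^
            (2 ^ s * k) := sum_comm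
      _ ≤ ∑ _T : Finset (Fin s), C * (2 * 8 ^ (2 ^ s * k)) ^ primes d * (Dv D).card := by
          refine sum_le_sum fun T _ => ?_
          refine (hC (∏ i ∈ T, d i) (prod_ne_zero_iff.2 fun i _ => hd i) D _
            (filter_subset _ _) fun c hc => (mem_filter.1 hc).2).trans ?_
          have h1 : (1 : ℝ) ≤ 2 * 8 ^ (2 ^ s * k) := by
            have : (1 : ℝ) ≤ 8 ^ (2 ^ s * k) := one_le_pow₀ (by norm_num)
            linarith
          have h2 := pow_le_pow_right₀ h1 (primes_le hd T)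
          gcongr
      _ = _ := by
          rw [sum_const, card_univ, hc, nsmul_eq_mul]
          push_cast
          ring
  have hZd : ∀ ε : ℝ, 0 < ε → ∃ D0 : ℕ, ∀ D, D0 ≤ D →
      (((Dv D).filter (fun c => c ∈ Z)).card : ℝ) ≤ ε * (Dv D).card := by
    intro ε hε
    obtain ⟨D0, h⟩ := hZ1 ε hε
    refine ⟨D0, fun D hD => ?_⟩
    have e0 : ((Dv D : Set (ℤ × ℤ)) ∩ Z) =
      (((Dv D).filter (fun c => c ∈ Z) : Finset (ℤ × ℤ)) : Set (ℤ × ℤ)) := by
      ext c
      simp
    have h1 := h D hD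
    rw [e0, Set.ncard_coe_finset] at h1
    exact h1
  refine ⟨fun D => ?_, ?_, ⟨Z, ?_, ?_⟩, ?_⟩
  · rw [Fam_eq]
    exact finite_toSet _
  · have h1 := Pool.Agent.W307.RT.tendsto_of_low Pool.Agent.W672.FK.lowf
    have h2 : Tendsto (fun D : ℕ => (Pool.Agent.W307.RT.Cv 2 (D / 32)).card) atTop atTop :=
      h1.comp (Nat.tendsto_div_const_atTop (by norm_num))
    refine tendsto_atTop_mono (fun D => ?_) h2
    rw [Fam_eqS, ← Set.ncard_coe_finset]
    exact Set.ncard_le_ncard (Pool.Agent.W307.RS.Cv_sub Pool.Agent.W554.RS.mdl 2 (D / 32) D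
      (Nat.mul_div_le D 32)) (Pool.Agent.TH344.DS.excd.1 D)
  · rw [proportion_eq]
    refine Pool.Agent.TH344.GT.tendsto_of_eps Dv fun ε hε => ?_
    obtain ⟨X0, h⟩ := hZd ε hε
    exact ⟨X0, h⟩
  · intro s k
    obtain ⟨C, hC⟩ := hPS s k
    refine ⟨C, fun d hd K _ _ hK D => ?_⟩
    have h := Pool.Agent.TH841.NF.famN ((Dv D).filter (fun c => c ∉ Z)) (fun _ => K)
      (fun c => E K c.1 c.2) (fun c => ((PS d (F c).1 (F c).2 : ℕ) : ℝ)) k _
      (fun c hc q hq => one D c (by
        rw [Fam_eq]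
        exact mem_coe.2 (mem_filter.1 hc).1) K s d hK hd q hq) (hC d hd D)
    have e1 : Fam D \ Z =
        (((Dv D).filter (fun c => c ∉ Z) : Finset (ℤ × ℤ)) : Set (ℤ × ℤ)) := by
      rw [Fam_eq]
      ext c
      simp
    rw [Fam_ncard]
    refine ⟨fun c hc => Pool.Agent.TH841.NF.bdd_of fun q hq => one D c hc K s d hK hd q hq,
      ?_, fun r => ?_⟩
    · rw [e1, finsum_mem_coe_finset]
      exact h.2.1
    · have e2 : {c | c ∈ Fam D \ Z ∧ r ≤ rk (E K c.1 c.2) + crk (E K c.1 c.2)} =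
          ((((Dv D).filter (fun c => c ∉ Z)).filter (fun c =>
            r ≤ rk (E K c.1 c.2) + crk (E K c.1 c.2)) : Finset (ℤ × ℤ)) : Set (ℤ × ℤ)) := by
        rw [e1]
        ext c
        simp
      rw [e2, Set.ncard_coe_finset]
      exact h.2.2 r
  · intro s d hd K _ _ hK B
    have hexc : EXC Dv (fun c => PS d (F c).1 (F c).2) := by
      refine ⟨Z, fun ε hε => ?_, fun k => ?_⟩
      · obtain ⟨X0, h⟩ := hZd ε hε
        exact ⟨X0, fun X hX => le_trans (le_of_eq (by congr)) (h X hX)⟩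
      · obtain ⟨C, hC⟩ := hPS s k
        exact ⟨C * (2 * 8 ^ (2 ^ s * k)) ^ primes d,
          fun X => le_trans (le_of_eq (by congr)) (hC d hd X)⟩
    simp only [upperDensity_eq]
    refine Pool.Agent.TH344.GT.tail Dv hexc 1
      (S := fun r => {c | r ≤ rk (E K c.1 c.2) + crk (E K c.1 c.2)}) (fun r D c hc hr => ?_) B
    rw [pow_one]
    have hc' : c ∈ Fam D := by
      rw [Fam_eq]
      exact mem_coe.2 hc
    have h1 := one D c hc' K s d hK hd _ (Pool.Agent.TH841.NF.crk_mem
      (Pool.Agent.TH841.NF.bdd_of fun q hq => one D c hc' K s d hK hd q hq))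
    have h2 : 2 ^ (rk (E K c.1 c.2) + crk (E K c.1 c.2)) ≤ PS d (F c).1 (F c).2 := by
      exact_mod_cast h1
    exact (Nat.pow_le_pow_right (by norm_num) hr).trans h2

end Pool.Agent.Results.MP_f50388_nt.DiscriminantOverFields
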