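import Pool.Agent.H125b.BW.Sysb
import Pool.Agent.Results.MP_1a91b9_nt.BracketsOverFields

/-!
# Comparing two fields: quotients of the products of Birch and Swinnerton-Dyer

Let `E` be an elliptic curve over `ℚ` and `K` a number field. What the conjecture says for `E/K` beyond `E/ℚ` is that
`L(E/K, s)/L(E/ℚ, s)` has the order `rk E(K) - rk E(ℚ)` at `s = 1` and the predicted quotient of leading coefficients.
This is the case `M = ℚ`, `E' = E` of the following setting: `K`, `M` are any number fields, `E : y² = x³ + a x + b` is an
elliptic curve over `K` with `a, b ∈ 𝓞_K` and `E' : y² = x³ + a' x + b'` one over `M` with `a', b' ∈ 𝓞_M`. Let `F`, `F'` be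
continuations of their `L`-series, MEROMORPHIC at every point with `Re s > 1` and at `s = 1` (nothing else is assumed),
with orders `m`, `m'` and leading coefficients `c`, `c'` at `1`. Let

`R*(x) = P*_{E/K}(x) / P*_{E'/M}(x)`,  `R(x) = P_{E/K}(x) / P_{E'/M}(x) = ∏_{Nv ≤ x} #E(k_v)/Nv · (∏_{Nw ≤ x} #E'(k_w)/Nw)⁻¹`

be the quotients of the products of Birch and Swinnerton-Dyer with the sharp cut-off, with and without the prime powers,
and `T = e^{(m - m')γ} |c'/c|`. Then, with windows `[Y^(1-δ), Y]`, `0 < δ < 1`:

* TWO-SIDED. If `R*(x) ≤ C (log x)^κ` for the `x` in the windows of one unbounded set of `Y`, and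
  `R*(x) ≥ C' (log x)^κ'`, `C' > 0`, for the `x` in the windows of another one, then `F` and `F'` have THE SAME ZEROS AND
  POLES with `Re s > 1`, with multiplicities, and `κ' ≤ m - m' ≤ κ`; moreover `T ≤ C` if `κ = m - m'`, and `C' ≤ T` if
  `κ' = m - m'`.
* ONE-SIDED. If `F/F'` has no real poles `> 1`, the upper bound alone suffices for the same conclusions from above, and
  every window with `Y` large contains an `x` with `R*(x) > (T - ε) (log x)^(m - m')`. If `F/F'` has no real zeros `> 1`, the
  lower bound alone suffices for the conclusions from below, and every window with `Y` large contains an `x` with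
  `R*(x) < (T + ε) (log x)^(m - m')`.
* The same holds for `R` with `T e^{-c₀}` in place of `T`, if the difference of the sums
  `∑_{√x < Nv ≤ x} (a_v² - 2 Nv)/(2 Nv²)` for `E/K` and `E'/M` tends to `c₀` (`c₀ = 0` if neither curve has complex
  multiplication). The statements on the zeros and poles and on `m - m'` hold for `R` without this hypothesis.

So, for `E/ℚ` and any `K`: `L(E/K, s)` and `L(E/ℚ, s)` have the same zeros and poles in `Re s > 1`, and their orders at
`s = 1` differ by `rk E(K) - rk E(ℚ)`, as soon as the quotient of the two products is between two constants times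
`(log x)^(rk E(K) - rk E(ℚ))` in one sequence of windows. No hypothesis is made on the products themselves, which may
behave as wildly as they like; the Riemann hypothesis is neither assumed nor obtained for `F` and `F'`. The theorems on
one product (Goldfeld 1982 and its extensions) say nothing here if the Riemann hypothesis fails for one of the two
functions.

The proof uses the method of `Pool.Agent.Q18.W` (helper18) for the Dirichlet series `log F - log F'`, for which no
positivity and no Euler product is needed, see `Pool.Agent.H125b.BW`.
-/

set_option autoImplicit false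

namespace Pool.Agent.Results.MP_f50388_nt.RelativeBrackets

open Filter Topology Set Complex NumberField IsDedekindDomain
open Pool.Agent.Results.MP_ae0bd0_nt.MeanProduct (Good norm points trace factor upTo product powerSum
  productStar)
open Pool.Agent.Results.MP_1a91b9_nt.MeanSquareLeading (squares)
open Pool.Agent.Results.MP_1a91b9_nt.BracketsOverFields (Continues)
open Pool.Agent.H125b.BW (Free NoRealPoles NoRealZeros IsLeading Windows Brackets OrderBrackets)

open Pool.Agent.Results.MP_ae0bd0_nt.MeanProduct (log_star star_pos log_product)
open Pool.Agent.Results.MP_1a91b9_nt.MeanSquareLeading (squares_eq)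
open Pool.Agent.Results.MP_1a91b9_nt.BracketsOverFields (data product_pos)

/-- **Quotients of the products of Birch and Swinnerton-Dyer of two curves over two number fields.** -/
theorem result (K M : Type) [Field K] [NumberField K] [Field M] [NumberField M]
    (a b : 𝓞 K) (_hΔ : 4 * a ^ 3 + 27 * b ^ 2 ≠ 0) (a' b' : 𝓞 M) (_hΔ' : 4 * a' ^ 3 + 27 * b' ^ 2 ≠ 0)
    (F F' : ℂ → ℂ) (hF : Continues a b F) (hF' : Continues a' b' F')
    (m m' : ℤ) (c c' : ℂ) (hc : IsLeading F m c) (hc' : IsLeading F' m' c') :
    Brackets (fun s => F s / F' s) (fun x => productStar a b x / productStar a' b' x) (m - m')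
      (Real.exp ((m - m' : ℤ) * Real.eulerMascheroniConstant) / ‖c / c'‖) ∧
    (∀ c₀ : ℝ, Tendsto (fun x => squares a b x - squares a' b' x) atTop (𝓝 c₀) →
      Brackets (fun s => F s / F' s) (fun x => product a b x / product a' b' x) (m - m')
        (Real.exp ((m - m' : ℤ) * Real.eulerMascheroniConstant - c₀) / ‖c / c'‖)) ∧
    OrderBrackets (fun s => F s / F' s) (fun x => product a b x / product a' b' x) (m - m') := by
  have H := data hF
  have H' := data hF'
  refine ⟨Pool.Agent.H125b.BW.rel_star H H' hc hc' (star_pos a b) (star_pos a' b') (log_star a b)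
    (log_star a' b'), fun c₀ hs => ?_,
    Pool.Agent.H125b.BW.rel_order H H' hc hc' (product_pos a b) (product_pos a' b') (log_product a b)
      (log_product a' b')⟩
  exact Pool.Agent.H125b.BW.rel_prime H H' hc hc' (product_pos a b) (product_pos a' b') (log_product a b)
    (log_product a' b') (by rw [← squares_eq, ← squares_eq]; exact hs)

end Pool.Agent.Results.MP_f50388_nt.RelativeBrackets
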